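import Pool.Agent.H7.CP.Targets
import Pool.Agent.H3.HD.DM

/-!
# Capturing (MP_e37c09_lc), row CD1: definability of `Capt` with codes
-/

open Ordinal Cardinal Order Set
open scoped ZFSet

universe u

namespace Pool.Agent.H69.CP.CD1

open _root_.HD Pool.Agent.H3.HD.DM

/-- `Capt` in terms of sets -/
def CPZ (k A : ZFSet.{u}) : Prop :=
  ∃ U h, HMZ k U ∧ HOD h ∧ ∀ x, HOD x → x ⊆ k → (x ∈ A ↔
    ∃ z ∈ U, ∀ b, b ∈ z ↔ b ∈ k ∧ ∃ c, ZFSet.pair b c ∈ h ∧ ∀ d, d ∈ c ↔ d ∈ x ∧ d ∈ b)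

theorem capt_iff {ν : Ordinal.{u}} {A : ZFSet.{u}} : Capt ν A ↔ CPZ ν.toZFSet A := by
  unfold Capt CPZ
  refine exists_congr fun U => exists_congr fun h => and_congr hmeas_iff
    (and_congr_right fun _ => forall_congr' fun x => imp_congr_right fun _ =>
      imp_congr_right fun _ => iff_congr Iff.rfl ?_)
  rw [sep_mem]
  refine exists_congr fun z => and_congr_right fun _ => forall_congr' fun b =>
    iff_congr Iff.rfl (and_congr_right fun _ => ?_)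
  exact inter_mem' h x b
where
  inter_mem' (h x b : ZFSet.{u}) : ZFSet.pair b (x ∩ b) ∈ h ↔
      ∃ c, ZFSet.pair b c ∈ h ∧ ∀ d, d ∈ c ↔ d ∈ x ∧ d ∈ b := by
    constructor
    · intro h1
      exact ⟨_, h1, fun d => ZFSet.mem_inter⟩
    · rintro ⟨c, h1, h2⟩
      have h3 : x ∩ b = c := by
        ext d
        rw [ZFSet.mem_inter, h2]
      rwa [h3]

theorem dzc (i j : ℕ) : DZ.{u} fun v => CPZ (v i) (v j) := by
  refine DZ.ex (DZ.ex (DZ.and (dz_HMZ (i + 2) 1) (DZ.and (dz_hod 0) ?_)))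
  refine DZ.all (DZ.imp (dz_hod 0) (DZ.imp (Loc.sub 0 (i + 3)).dz (DZ.iff (DZ.mem 0 (j + 3))
    (DZ.exMem 2 (DZ.all (DZ.iff (DZ.mem 0 1) (DZ.and (DZ.mem 0 (i + 5)) ?_)))))))
  exact DZ.ex (DZ.and (loc_pmem 1 0 4).dz (DZ.all (DZ.iff (DZ.mem 0 1)
    (DZ.and (DZ.mem 0 4) (DZ.mem 0 2)))))

theorem X : T_CD1.{u} := by
  intro en hen
  refine ⟨fun v => ∃ y : ZFSet.{u}, ((v 1).IsOrdinal ∧ y = en (v 1).rank) ∧ CPZ (v 0) y, ?_, ?_⟩
  · refine DZ.ex (DZ.and ?_ (dzc 1 0))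
    exact hen.dz.ren fun n => if n = 0 then 2 else 0
  · intro w
    constructor
    · intro h
      refine ⟨en (w 1), ⟨ZFSet.isOrdinal_toZFSet _, ?_⟩, ?_⟩
      · simp [ov, rank_toZFSet]
      · exact capt_iff.1 h
    · rintro ⟨y, ⟨-, rfl⟩, h⟩
      have h1 := capt_iff.2 h
      simpa [ov, rank_toZFSet] using h1

end Pool.Agent.H69.CP.CD1
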