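import Pool.Agent.H7.CP.Targets3
import Pool.Agent.H64.CP.CMR

/-!
# (JOI) capturing of two sets (MP_e37c09_lc)
-/

open Ordinal Cardinal Order Set
open scoped ZFSet

universe u

namespace Pool.Agent.H69.CP.JOI

open _root_.HD
open Pool.Agent.H64.HDA.DN (do_succ)
open Pool.Agent.H63.HDA.LI (os_inter os_congr os_sub)
open Pool.Agent.H64.CP.CMR (coll mem_coll hod_coll)

/-- the set `Y`, shifted by one, with `0` if `i` holds -/
def J (i : Prop) (Y : Set Ordinal.{u}) : Set Ordinal.{u} :=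
  {c | (c = 0 ∧ i) ∨ ∃ a, a ∈ Y ∧ c = succ a}

theorem zero_mem_J {i : Prop} {Y : Set Ordinal.{u}} : (0 : Ordinal.{u}) ∈ J i Y ↔ i := by
  constructor
  · rintro (⟨-, h⟩ | ⟨a, -, h⟩)
    · exact h
    · exact absurd h.symm (Order.succ_ne_bot a)
  · intro h
    exact Or.inl ⟨rfl, h⟩

theorem succ_mem_J {i : Prop} {Y : Set Ordinal.{u}} {a : Ordinal.{u}} :
    succ a ∈ J i Y ↔ a ∈ Y := by
  constructor
  · rintro (⟨h, -⟩ | ⟨b, hb, h⟩)
    · exact absurd h (Order.succ_ne_bot a)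
    · rw [Order.succ_injective h]
      exact hb
  · intro h
    exact Or.inr ⟨a, h, rfl⟩

theorem do_J (i : Prop) {Y : Ordinal.{u} → (ℕ → Ordinal.{u}) → Prop}
    (hY : DO fun w => Y (w 0) (fun n => w (n + 1))) :
    DO fun w => w 0 ∈ J i {a | Y a (fun n => w (n + 1))} := by
  have h1 : DO fun w => (w 0 = 0 ∧ i) ∨ ∃ a, Y a (fun n => w (n + 1)) ∧ w 0 = succ a := by
    refine DO.or ((DO.eqc 0 0).and (DO.cst i))
      (DO.ex (R := fun a w => Y a (fun n => w (n + 1)) ∧ w 0 = succ a)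
        (DO.and ?_ (do_succ 1 0)))
    refine (hY.ren fun n => if n = 0 then 0 else n + 1).congr fun w => ?_
    have : (fun n => w (if n + 1 = 0 then 0 else n + 1 + 1)) = fun n => w (n + 1 + 1) := by
      funext n
      rw [if_neg (Nat.succ_ne_zero n)]
    show Y (w 0) (fun n => w (n + 1 + 1)) ↔ Y (w (if 0 = 0 then 0 else 0 + 1))
      (fun n => w (if n + 1 = 0 then 0 else n + 1 + 1))
    rw [this, if_pos rfl]
  exact h1

theorem ds_J (i : Prop) {Y : Set Ordinal.{u}} (hY : DS Y) : DS (J i Y) :=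
  do_J i (Y := fun a _ => a ∈ Y) (hY.s1 0)

/-- the relation given by the function `h` -/
def HJ (i : Prop) (h : ZFSet.{u}) (ξ : Ordinal.{u}) (Y : Set Ordinal.{u}) : Prop :=
  ZFSet.pair ξ.toZFSet (os ξ (J i Y)) ∈ h

theorem hr_HJ (i : Prop) {h : ZFSet.{u}} (hh : HOD h) : HR (HJ i h) := by
  constructor
  · intro ξ X Y hXY
    have : os ξ (J i X) = os ξ (J i Y) := by
      refine os_congr fun c hc => ?_
      show (_ ∨ _) ↔ (_ ∨ _)
      refine or_congr Iff.rfl ?_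
      constructor
      · rintro ⟨a, ha, h1⟩
        exact ⟨a, (hXY a (by rw [h1] at hc; exact (lt_succ a).trans hc)).1 ha, h1⟩
      · rintro ⟨a, ha, h1⟩
        exact ⟨a, (hXY a (by rw [h1] at hc; exact (lt_succ a).trans hc)).2 ha, h1⟩
    unfold HJ
    rw [this]
  · intro Y hY j
    exact DO.setArg (R := fun s v => ZFSet.pair (v j) s ∈ h)
      (DZ.od (R := fun h v => ZFSet.pair (v (j + 1)) (v 0) ∈ h) hh.od
        (loc_pmem (j + 2) 1 0).dz)
      (X := fun c w => c ∈ J i {a | Y a w}) (do_J i hY) j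

/-- capturing of one of the two sets -/
theorem cap (hCPU : T_CPU.{u}) (i : Prop) {ν : Ordinal.{u}} {U B B' : ZFSet.{u}}
    (hB' : HOD B') (hν' : ∀ x ∈ B', x ⊆ ν.toZFSet) (hU : NMe ν U) (hc : CpU B ν U)
    (hJ : ∀ Y : Set Ordinal.{u}, DS Y → (os ν Y ∈ B' ↔ os ν (J i Y) ∈ B)) : CpU B' ν U := by
  obtain ⟨h, hh, hc⟩ := hc
  refine hCPU (HJ i h) ν U B' (hr_HJ i hh) hU hB' hν' fun Y hY => ?_
  rw [hJ Y hY, hc _ (hod_os (ds_J i hY) ν) (os_sub _ _)]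
  have : ZFSet.sep (fun b => ZFSet.pair b (os ν (J i Y) ∩ b) ∈ h) ν.toZFSet =
      os ν {ξ | HJ i h ξ Y} := by
    ext z
    rw [ZFSet.mem_sep, mem_os]
    constructor
    · rintro ⟨h1, h2⟩
      obtain ⟨b, hb, rfl⟩ := mem_toZFSet_iff.1 h1
      rw [os_inter hb] at h2
      exact ⟨b, hb, h2, rfl⟩
    · rintro ⟨b, hb, h2, rfl⟩
      refine ⟨toZFSet_mem_toZFSet_iff.2 hb, ?_⟩
      rw [os_inter hb]
      exact h2
  rw [this]

theorem X (hCPU : T_CPU.{u}) : T_JOI.{u} := by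
  intro ν B₀ B₁ hB0 hB1 hs0 hs1
  obtain ⟨en, hen⟩ := All.en.{u}
  have hE : DO fun w => w 0 ∈ E en (w 1) := (t_EA en hen).1
  obtain ⟨P, hP⟩ : ∃ P : Ordinal.{u} → Ordinal.{u} → Prop, P = fun n e =>
      ((¬ ∃ z, z = 0 ∧ z ∈ E en e) ∧ os n {a | ∃ c, c = succ a ∧ c ∈ E en e} ∈ B₀) ∨
      ((∃ z, z = 0 ∧ z ∈ E en e) ∧ os n {a | ∃ c, c = succ a ∧ c ∈ E en e} ∈ B₁) := ⟨_, rfl⟩
  have hz : DO fun w => ∃ z, z = 0 ∧ z ∈ E en (w 1) :=
    DO.ex (R := fun z w => z = 0 ∧ z ∈ E en (w 1)) ((DO.eqc 0 0).and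
      (DO.s2 (X := fun a b => a ∈ E en b) hE 0 2))
  have hb : ∀ {b : ZFSet.{u}}, HOD b →
      DO fun w => os (w 0) {a | ∃ c, c = succ a ∧ c ∈ E en (w 1)} ∈ b := fun {b} hb =>
    DO.setArg (R := fun s _ => s ∈ b)
      (DZ.od (R := fun f v => v 0 ∈ f) hb.od (DZ.mem 1 0))
      (X := fun a w => ∃ c, c = succ a ∧ c ∈ E en (w 1))
      (DO.ex (R := fun c w => c = succ (w 0) ∧ c ∈ E en (w 2)) ((do_succ 0 1).and
        (DO.s2 (X := fun a b => a ∈ E en b) hE 0 3))) 0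
  have hPD : DO fun w => P (w 0) (w 1) := by
    rw [hP]
    exact (hz.not.and (hb hB0)).or (hz.and (hb hB1))
  have hPν : DO fun w => P ν (w 0) := DO.sub (R := fun n w => P n (w 0)) ν hPD
  refine ⟨coll en ν (P ν), hod_coll hen hPν ν, fun x hx => (mem_coll.1 hx).1, fun U hU hc => ?_⟩
  have hNU : NMe ν U := (All.hmi ν U).1 hU
  have hlim := hNU.lim
  have hpos : (0 : Ordinal.{u}) < ν := hlim.bot_lt
  -- the codes of the set `J i Y`
  have e1 : ∀ (i : Prop) (Y : Set Ordinal.{u}) (e : Ordinal.{u}), en e = os ν (J i Y) →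
      ((∃ z, z = 0 ∧ z ∈ E en e) ↔ i) := by
    intro i Y e he
    show (∃ z : Ordinal.{u}, z = 0 ∧ z.toZFSet ∈ en e) ↔ i
    rw [he]
    constructor
    · rintro ⟨z, rfl, h⟩
      exact zero_mem_J.1 (ord_mem_os.1 h).2
    · intro h
      exact ⟨0, rfl, ord_mem_os.2 ⟨hpos, zero_mem_J.2 h⟩⟩
  have e2 : ∀ (i : Prop) (Y : Set Ordinal.{u}) (e : Ordinal.{u}), en e = os ν (J i Y) →
      os ν {a | ∃ c, c = succ a ∧ c ∈ E en e} = os ν Y := by
    intro i Y e he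
    refine os_congr fun a ha => ?_
    show (∃ c, c = succ a ∧ c.toZFSet ∈ en e) ↔ a ∈ Y
    rw [he]
    constructor
    · rintro ⟨c, rfl, h⟩
      exact succ_mem_J.1 (ord_mem_os.1 h).2
    · intro h
      exact ⟨_, rfl, ord_mem_os.2 ⟨hlim.succ_lt ha, succ_mem_J.2 h⟩⟩
  have e3 : ∀ (i : Prop) (Y : Set Ordinal.{u}), DS Y → (os ν (J i Y) ∈ coll en ν (P ν) ↔
      (¬ i ∧ os ν Y ∈ B₀) ∨ (i ∧ os ν Y ∈ B₁)) := by
    intro i Y hY
    rw [mem_coll, hP]
    constructor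
    · rintro ⟨-, e, he, h⟩
      beta_reduce at h
      rw [e1 i Y e he, e2 i Y e he] at h
      exact h
    · intro h
      obtain ⟨e, he⟩ := (hen.od _).1 (od_os (ds_J i hY) ν)
      refine ⟨os_sub _ _, e, he, ?_⟩
      beta_reduce
      rw [e1 i Y e he, e2 i Y e he]
      exact h
  constructor
  · refine cap hCPU False hB0 hs0 hNU hc fun Y hY => ?_
    rw [e3 False Y hY]
    simp
  · refine cap hCPU True hB1 hs1 hNU hc fun Y hY => ?_
    rw [e3 True Y hY]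
    simp

end Pool.Agent.H69.CP.JOI
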